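import Mathlib
import Pool.Agent.Lib.P05dae2.Final

/-!
# MP_05dae2_an: an SFT of positive entropy all of whose nonempty sub-SFTs have positive entropy

For every `d ≥ 2`.  Definitions (file `Pool/Agent/Lib/P05dae2/Basic.lean`): `Pt d` is `ℤ^d`,
`Cfg d S` the set of maps from `ℤ^d` to `S`, `Pat d S` the patterns (maps from a finite subset
of `ℤ^d` to `S`), `Occurs p v x` says that the translate of `p` by `v` occurs in `x`, `IsSFT X`
says that `X` is the set of configurations avoiding all translates of the patterns of some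
finite set, `numPat X n` is the number of patterns on `{0,…,n-1}^d` occurring in elements of
`X`, and `HasEnt X h` says that `log (numPat X n) / n^d` tends to `h`.
-/

namespace Pool.Agent.Results.MP_05dae2_an.EverySubSFTPositive

open Pool.Agent.Lib.P05dae2

/-- For every `d ≥ 2` there are a finite alphabet `S` and a `ℤ^d` shift of finite type `A` over
`S` which has positive entropy and such that every nonempty shift of finite type `B ⊆ A` has
positive entropy. -/
theorem result : ∀ d : ℕ, 2 ≤ d → ∃ (S : Type) (_ : Finite S) (A : Set (Cfg d S)),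
    IsSFT A ∧ (∃ h : ℝ, 0 < h ∧ HasEnt A h) ∧
      ∀ B : Set (Cfg d S), B ⊆ A → IsSFT B → B.Nonempty → ∃ h : ℝ, 0 < h ∧ HasEnt B h := by
  intro d hd
  obtain ⟨e, rfl⟩ : ∃ e, d = e + 2 := ⟨d - 2, by omega⟩
  obtain ⟨n, enc, ⟨G⟩⟩ := exists_geo e
  obtain ⟨A, hA, hent, hB⟩ := G.main
  exact ⟨G.SL 0, inferInstance, A, hA, hent, hB⟩

end Pool.Agent.Results.MP_05dae2_an.EverySubSFTPositive
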